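import Pool.Agent.Strip051.Box.C2
import Pool.Agent.Strip051.Box.S30
import Pool.Agent.Strip051.LB.Fc.F2

/-! # LINE tight chart ChB30V3_pp_011 -/

namespace Pool.Agent.Strip051.LB.ChB30V3_pp_011

open Pool.Agent.Strip051.Box Pool.Agent.Strip051.Box2

open Pool.Agent.Strip051.LB.Fc Pool.Agent.Strip051.LB.Fc.F2 Pool.Agent.Strip051.LB.Fn Pool.Agent.Strip051.LB.Fn.F2

/-- coordinates of a point of the box -/
def In (b : Bx) (E : Pt) (x1 x2 : ℝ) : Prop :=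
  (S : ℝ) * x1 = ((b.p1 : ℝ) - b.n1) + b.q1 * E.e1 ∧ (S : ℝ) * x2 = ((b.p2 : ℝ) - b.n2) + b.q2 * E.e2

variable {b : Bx} {E : Pt} {x1 x2 : ℝ}

def t0 (b : Bx) : TM := X1 b
noncomputable def v0 (x1 _x2 : ℝ) : ℝ := x1
theorem h0 (h : In b E x1 x2) : Enc S E (t0 b) (v0 x1 x2) := enc_X1 h.1

def t1 (b : Bx) : TM := X2 b
noncomputable def v1 (_x1 x2 : ℝ) : ℝ := x2
theorem h1 (h : In b E x1 x2) : Enc S E (t1 b) (v1 x1 x2) := enc_X2 h.2

def t2 (_b : Bx) : TM := tconst 1859775393 0 1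
noncomputable def v2 (_x1 _x2 : ℝ) : ℝ := Real.sqrt ((3 : ℕ) : ℝ)
theorem h2 (_h : In b E x1 x2) : Enc S E (t2 b) (v2 x1 x2) := enc_sqrtn E (by decide) (by decide)

def t3 (b : Bx) : TM := tscale 1 2 (t2 b)
noncomputable def v3 (x1 x2 : ℝ) : ℝ := ((1 : ℕ) : ℝ) / ((2 : ℕ) : ℝ) * v2 x1 x2
theorem h3 (h : In b E x1 x2) : Enc S E (t3 b) (v3 x1 x2) := enc_scale 1 (by norm_num) (h2 h)

def t4 (b : Bx) : TM := tsq S (t0 b)
noncomputable def v4 (x1 x2 : ℝ) : ℝ := (v0 x1 x2) ^ 2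
theorem h4 (h : In b E x1 x2) : Enc S E (t4 b) (v4 x1 x2) := enc_sq hS (h0 h)

def t5 (_b : Bx) : TM := tconst (Nat.mul 3 S) 0 0
noncomputable def v5 (_x1 _x2 : ℝ) : ℝ := ((3 : ℕ) : ℝ)
theorem h5 (_h : In b E x1 x2) : Enc S E (t5 b) (v5 x1 x2) := enc_nc E 3

def t6 (b : Bx) : TM := tsub (t5 b) (t4 b)
noncomputable def v6 (x1 x2 : ℝ) : ℝ := v5 x1 x2 - v4 x1 x2
theorem h6 (h : In b E x1 x2) : Enc S E (t6 b) (v6 x1 x2) := enc_sub (h5 h) (h4 h)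

def t7 (b : Bx) : TM := tsqrt S (t6 b)
noncomputable def v7 (x1 x2 : ℝ) : ℝ := Real.sqrt (v6 x1 x2)
theorem h7 (h : In b E x1 x2) : Enc S E (t7 b) (v7 x1 x2) := enc_sqrt hS (h6 h)

def t8 (b : Bx) : TM := tinv S (t2 b)
noncomputable def v8 (x1 x2 : ℝ) : ℝ := (v2 x1 x2)⁻¹
theorem h8 (h : In b E x1 x2) : Enc S E (t8 b) (v8 x1 x2) := enc_inv hS (h2 h)

def t9 (b : Bx) : TM := tmul S (t7 b) (t8 b)
noncomputable def v9 (x1 x2 : ℝ) : ℝ := v7 x1 x2 * v8 x1 x2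
theorem h9 (h : In b E x1 x2) : Enc S E (t9 b) (v9 x1 x2) := enc_mul hS (h7 h) (h8 h)

def t10 (b : Bx) : TM := tmul S (t0 b) (t8 b)
noncomputable def v10 (x1 x2 : ℝ) : ℝ := v0 x1 x2 * v8 x1 x2
theorem h10 (h : In b E x1 x2) : Enc S E (t10 b) (v10 x1 x2) := enc_mul hS (h0 h) (h8 h)

def t12 (_b : Bx) : TM := tconst (Nat.div (Nat.mul 1 S) 2) 0 1
noncomputable def v12 (_x1 _x2 : ℝ) : ℝ := ((1 : ℕ) : ℝ) / ((2 : ℕ) : ℝ)
theorem h12 (_h : In b E x1 x2) : Enc S E (t12 b) (v12 x1 x2) := enc_rat E 1 (by norm_num)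

def t13 (b : Bx) : TM := tmul S (t9 b) (t3 b)
noncomputable def v13 (x1 x2 : ℝ) : ℝ := v9 x1 x2 * v3 x1 x2
theorem h13 (h : In b E x1 x2) : Enc S E (t13 b) (v13 x1 x2) := enc_mul hS (h9 h) (h3 h)

def t15 (b : Bx) : TM := tscale 1 2 (t10 b)
noncomputable def v15 (x1 x2 : ℝ) : ℝ := ((1 : ℕ) : ℝ) / ((2 : ℕ) : ℝ) * v10 x1 x2
theorem h15 (h : In b E x1 x2) : Enc S E (t15 b) (v15 x1 x2) := enc_scale 1 (by norm_num) (h10 h)

def t17 (b : Bx) : TM := tmul S (t10 b) (t3 b)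
noncomputable def v17 (x1 x2 : ℝ) : ℝ := v10 x1 x2 * v3 x1 x2
theorem h17 (h : In b E x1 x2) : Enc S E (t17 b) (v17 x1 x2) := enc_mul hS (h10 h) (h3 h)

def t19 (b : Bx) : TM := tscale 1 2 (t9 b)
noncomputable def v19 (x1 x2 : ℝ) : ℝ := ((1 : ℕ) : ℝ) / ((2 : ℕ) : ℝ) * v9 x1 x2
theorem h19 (h : In b E x1 x2) : Enc S E (t19 b) (v19 x1 x2) := enc_scale 1 (by norm_num) (h9 h)

def t21 (b : Bx) : TM := tsub (t13 b) (t15 b)
noncomputable def v21 (x1 x2 : ℝ) : ℝ := v13 x1 x2 - v15 x1 x2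
theorem h21 (h : In b E x1 x2) : Enc S E (t21 b) (v21 x1 x2) := enc_sub (h13 h) (h15 h)

def t22 (b : Bx) : TM := tadd (t17 b) (t19 b)
noncomputable def v22 (x1 x2 : ℝ) : ℝ := v17 x1 x2 + v19 x1 x2
theorem h22 (h : In b E x1 x2) : Enc S E (t22 b) (v22 x1 x2) := enc_add (h17 h) (h19 h)

def t23 (b : Bx) : TM := tsub (t1 b) (t22 b)
noncomputable def v23 (x1 x2 : ℝ) : ℝ := v1 x1 x2 - v22 x1 x2
theorem h23 (h : In b E x1 x2) : Enc S E (t23 b) (v23 x1 x2) := enc_sub (h1 h) (h22 h)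

def t24 (b : Bx) : TM := tsq S (t1 b)
noncomputable def v24 (x1 x2 : ℝ) : ℝ := (v1 x1 x2) ^ 2
theorem h24 (h : In b E x1 x2) : Enc S E (t24 b) (v24 x1 x2) := enc_sq hS (h1 h)

def t25 (_b : Bx) : TM := tconst (Nat.mul 1 S) 0 0
noncomputable def v25 (_x1 _x2 : ℝ) : ℝ := ((1 : ℕ) : ℝ)
theorem h25 (_h : In b E x1 x2) : Enc S E (t25 b) (v25 x1 x2) := enc_nc E 1

def t26 (b : Bx) : TM := tsub (t25 b) (t24 b)
noncomputable def v26 (x1 x2 : ℝ) : ℝ := v25 x1 x2 - v24 x1 x2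
theorem h26 (h : In b E x1 x2) : Enc S E (t26 b) (v26 x1 x2) := enc_sub (h25 h) (h24 h)

def t27 (b : Bx) : TM := tsqrt S (t26 b)
noncomputable def v27 (x1 x2 : ℝ) : ℝ := Real.sqrt (v26 x1 x2)
theorem h27 (h : In b E x1 x2) : Enc S E (t27 b) (v27 x1 x2) := enc_sqrt hS (h26 h)

def t28 (b : Bx) : TM := tsub (t27 b) (t7 b)
noncomputable def v28 (x1 x2 : ℝ) : ℝ := v27 x1 x2 - v7 x1 x2
theorem h28 (h : In b E x1 x2) : Enc S E (t28 b) (v28 x1 x2) := enc_sub (h27 h) (h7 h)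

def t29 (b : Bx) : TM := tsub (t1 b) (t0 b)
noncomputable def v29 (x1 x2 : ℝ) : ℝ := v1 x1 x2 - v0 x1 x2
theorem h29 (h : In b E x1 x2) : Enc S E (t29 b) (v29 x1 x2) := enc_sub (h1 h) (h0 h)

def t30 (_b : Bx) : TM := tconst (Nat.div (Nat.mul 3 S) 2) 0 1
noncomputable def v30 (_x1 _x2 : ℝ) : ℝ := ((3 : ℕ) : ℝ) / ((2 : ℕ) : ℝ)
theorem h30 (_h : In b E x1 x2) : Enc S E (t30 b) (v30 x1 x2) := enc_rat E 3 (by norm_num)

def t31 (b : Bx) : TM := tadd (t7 b) (t30 b)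
noncomputable def v31 (x1 x2 : ℝ) : ℝ := v7 x1 x2 + v30 x1 x2
theorem h31 (h : In b E x1 x2) : Enc S E (t31 b) (v31 x1 x2) := enc_add (h7 h) (h30 h)

def t32 (b : Bx) : TM := tmul S (t4 b) (t31 b)
noncomputable def v32 (x1 x2 : ℝ) : ℝ := v4 x1 x2 * v31 x1 x2
theorem h32 (h : In b E x1 x2) : Enc S E (t32 b) (v32 x1 x2) := enc_mul hS (h4 h) (h31 h)

def t33 (b : Bx) : TM := tsub (t3 b) (t0 b)
noncomputable def v33 (x1 x2 : ℝ) : ℝ := v3 x1 x2 - v0 x1 x2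
theorem h33 (h : In b E x1 x2) : Enc S E (t33 b) (v33 x1 x2) := enc_sub (h3 h) (h0 h)

def t34 (b : Bx) : TM := tadd (t3 b) (t0 b)
noncomputable def v34 (x1 x2 : ℝ) : ℝ := v3 x1 x2 + v0 x1 x2
theorem h34 (h : In b E x1 x2) : Enc S E (t34 b) (v34 x1 x2) := enc_add (h3 h) (h0 h)

def t35 (b : Bx) : TM := tmul S (t33 b) (t34 b)
noncomputable def v35 (x1 x2 : ℝ) : ℝ := v33 x1 x2 * v34 x1 x2
theorem h35 (h : In b E x1 x2) : Enc S E (t35 b) (v35 x1 x2) := enc_mul hS (h33 h) (h34 h)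

def t36 (b : Bx) : TM := tinv S (t35 b)
noncomputable def v36 (x1 x2 : ℝ) : ℝ := (v35 x1 x2)⁻¹
theorem h36 (h : In b E x1 x2) : Enc S E (t36 b) (v36 x1 x2) := enc_inv hS (h35 h)

def t37 (b : Bx) : TM := tmul S (t32 b) (t36 b)
noncomputable def v37 (x1 x2 : ℝ) : ℝ := v32 x1 x2 * v36 x1 x2
theorem h37 (h : In b E x1 x2) : Enc S E (t37 b) (v37 x1 x2) := enc_mul hS (h32 h) (h36 h)

def t41 (b : Bx) : TM := tmul S (t2 b) (t1 b)
noncomputable def v41 (x1 x2 : ℝ) : ℝ := v2 x1 x2 * v1 x1 x2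
theorem h41 (h : In b E x1 x2) : Enc S E (t41 b) (v41 x1 x2) := enc_mul hS (h2 h) (h1 h)

def t42 (b : Bx) : TM := tsub (t41 b) (t27 b)
noncomputable def v42 (x1 x2 : ℝ) : ℝ := v41 x1 x2 - v27 x1 x2
theorem h42 (h : In b E x1 x2) : Enc S E (t42 b) (v42 x1 x2) := enc_sub (h41 h) (h27 h)

def t44 (b : Bx) : TM := tadd (t25 b) (t41 b)
noncomputable def v44 (x1 x2 : ℝ) : ℝ := v25 x1 x2 + v41 x1 x2
theorem h44 (h : In b E x1 x2) : Enc S E (t44 b) (v44 x1 x2) := enc_add (h25 h) (h41 h)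

def t45 (b : Bx) : TM := tsub (t44 b) (t27 b)
noncomputable def v45 (x1 x2 : ℝ) : ℝ := v44 x1 x2 - v27 x1 x2
theorem h45 (h : In b E x1 x2) : Enc S E (t45 b) (v45 x1 x2) := enc_sub (h44 h) (h27 h)

def t46 (b : Bx) : TM := tnat 2 (t45 b)
noncomputable def v46 (x1 x2 : ℝ) : ℝ := ((2 : ℕ) : ℝ) * v45 x1 x2
theorem h46 (h : In b E x1 x2) : Enc S E (t46 b) (v46 x1 x2) := enc_nat 2 (h45 h)

def t47 (b : Bx) : TM := tinv S (t46 b)
noncomputable def v47 (x1 x2 : ℝ) : ℝ := (v46 x1 x2)⁻¹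
theorem h47 (h : In b E x1 x2) : Enc S E (t47 b) (v47 x1 x2) := enc_inv hS (h46 h)

def t49 (b : Bx) : TM := tsq S (t28 b)
noncomputable def v49 (x1 x2 : ℝ) : ℝ := (v28 x1 x2) ^ 2
theorem h49 (h : In b E x1 x2) : Enc S E (t49 b) (v49 x1 x2) := enc_sq hS (h28 h)

def t50 (b : Bx) : TM := tsq S (t29 b)
noncomputable def v50 (x1 x2 : ℝ) : ℝ := (v29 x1 x2) ^ 2
theorem h50 (h : In b E x1 x2) : Enc S E (t50 b) (v50 x1 x2) := enc_sq hS (h29 h)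

def t51 (b : Bx) : TM := tadd (t49 b) (t50 b)
noncomputable def v51 (x1 x2 : ℝ) : ℝ := v49 x1 x2 + v50 x1 x2
theorem h51 (h : In b E x1 x2) : Enc S E (t51 b) (v51 x1 x2) := enc_add (h49 h) (h50 h)

def t55 (b : Bx) : TM := tadd (t1 b) (t22 b)
noncomputable def v55 (x1 x2 : ℝ) : ℝ := v1 x1 x2 + v22 x1 x2
theorem h55 (h : In b E x1 x2) : Enc S E (t55 b) (v55 x1 x2) := enc_add (h1 h) (h22 h)

def t58 (b : Bx) : TM := tadd (t27 b) (t21 b)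
noncomputable def v58 (x1 x2 : ℝ) : ℝ := v27 x1 x2 + v21 x1 x2
theorem h58 (h : In b E x1 x2) : Enc S E (t58 b) (v58 x1 x2) := enc_add (h27 h) (h21 h)

def t59 (b : Bx) : TM := tinv S (t58 b)
noncomputable def v59 (x1 x2 : ℝ) : ℝ := (v58 x1 x2)⁻¹
theorem h59 (h : In b E x1 x2) : Enc S E (t59 b) (v59 x1 x2) := enc_inv hS (h58 h)

def t60 (b : Bx) : TM := tmul S (t55 b) (t59 b)
noncomputable def v60 (x1 x2 : ℝ) : ℝ := v55 x1 x2 * v59 x1 x2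
theorem h60 (h : In b E x1 x2) : Enc S E (t60 b) (v60 x1 x2) := enc_mul hS (h55 h) (h59 h)

def t62 (b : Bx) : TM := tsub (t21 b) (t7 b)
noncomputable def v62 (x1 x2 : ℝ) : ℝ := v21 x1 x2 - v7 x1 x2
theorem h62 (h : In b E x1 x2) : Enc S E (t62 b) (v62 x1 x2) := enc_sub (h21 h) (h7 h)

def t64 (b : Bx) : TM := tadd (t28 b) (t62 b)
noncomputable def v64 (x1 x2 : ℝ) : ℝ := v28 x1 x2 + v62 x1 x2
theorem h64 (h : In b E x1 x2) : Enc S E (t64 b) (v64 x1 x2) := enc_add (h28 h) (h62 h)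

def t65 (b : Bx) : TM := tmul S (t60 b) (t64 b)
noncomputable def v65 (x1 x2 : ℝ) : ℝ := v60 x1 x2 * v64 x1 x2
theorem h65 (h : In b E x1 x2) : Enc S E (t65 b) (v65 x1 x2) := enc_mul hS (h60 h) (h64 h)

def t67 (b : Bx) : TM := tsub (t22 b) (t0 b)
noncomputable def v67 (x1 x2 : ℝ) : ℝ := v22 x1 x2 - v0 x1 x2
theorem h67 (h : In b E x1 x2) : Enc S E (t67 b) (v67 x1 x2) := enc_sub (h22 h) (h0 h)

def t69 (b : Bx) : TM := tadd (t29 b) (t67 b)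
noncomputable def v69 (x1 x2 : ℝ) : ℝ := v29 x1 x2 + v67 x1 x2
theorem h69 (h : In b E x1 x2) : Enc S E (t69 b) (v69 x1 x2) := enc_add (h29 h) (h67 h)

def t71 (b : Bx) : TM := tsub (t69 b) (t65 b)
noncomputable def v71 (x1 x2 : ℝ) : ℝ := v69 x1 x2 - v65 x1 x2
theorem h71 (h : In b E x1 x2) : Enc S E (t71 b) (v71 x1 x2) := enc_sub (h69 h) (h65 h)

def t73 (b : Bx) : TM := tsub (t7 b) (t27 b)
noncomputable def v73 (x1 x2 : ℝ) : ℝ := v7 x1 x2 - v27 x1 x2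
theorem h73 (h : In b E x1 x2) : Enc S E (t73 b) (v73 x1 x2) := enc_sub (h7 h) (h27 h)

def t74 (b : Bx) : TM := tsub (t25 b) (t50 b)
noncomputable def v74 (x1 x2 : ℝ) : ℝ := v25 x1 x2 - v50 x1 x2
theorem h74 (h : In b E x1 x2) : Enc S E (t74 b) (v74 x1 x2) := enc_sub (h25 h) (h50 h)

def t75 (b : Bx) : TM := tsqrt S (t74 b)
noncomputable def v75 (x1 x2 : ℝ) : ℝ := Real.sqrt (v74 x1 x2)
theorem h75 (h : In b E x1 x2) : Enc S E (t75 b) (v75 x1 x2) := enc_sqrt hS (h74 h)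

def t76 (b : Bx) : TM := tadd (t15 b) (t13 b)
noncomputable def v76 (x1 x2 : ℝ) : ℝ := v15 x1 x2 + v13 x1 x2
theorem h76 (h : In b E x1 x2) : Enc S E (t76 b) (v76 x1 x2) := enc_add (h15 h) (h13 h)

def t79 (b : Bx) : TM := tmul S (t2 b) (t29 b)
noncomputable def v79 (x1 x2 : ℝ) : ℝ := v2 x1 x2 * v29 x1 x2
theorem h79 (h : In b E x1 x2) : Enc S E (t79 b) (v79 x1 x2) := enc_mul hS (h2 h) (h29 h)

def t80 (b : Bx) : TM := tsub (t79 b) (t75 b)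
noncomputable def v80 (x1 x2 : ℝ) : ℝ := v79 x1 x2 - v75 x1 x2
theorem h80 (h : In b E x1 x2) : Enc S E (t80 b) (v80 x1 x2) := enc_sub (h79 h) (h75 h)

def t82 (b : Bx) : TM := tadd (t25 b) (t79 b)
noncomputable def v82 (x1 x2 : ℝ) : ℝ := v25 x1 x2 + v79 x1 x2
theorem h82 (h : In b E x1 x2) : Enc S E (t82 b) (v82 x1 x2) := enc_add (h25 h) (h79 h)

def t83 (b : Bx) : TM := tsub (t82 b) (t75 b)
noncomputable def v83 (x1 x2 : ℝ) : ℝ := v82 x1 x2 - v75 x1 x2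
theorem h83 (h : In b E x1 x2) : Enc S E (t83 b) (v83 x1 x2) := enc_sub (h82 h) (h75 h)

def t84 (b : Bx) : TM := tnat 2 (t83 b)
noncomputable def v84 (x1 x2 : ℝ) : ℝ := ((2 : ℕ) : ℝ) * v83 x1 x2
theorem h84 (h : In b E x1 x2) : Enc S E (t84 b) (v84 x1 x2) := enc_nat 2 (h83 h)

def t85 (b : Bx) : TM := tinv S (t84 b)
noncomputable def v85 (x1 x2 : ℝ) : ℝ := (v84 x1 x2)⁻¹
theorem h85 (h : In b E x1 x2) : Enc S E (t85 b) (v85 x1 x2) := enc_inv hS (h84 h)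

def t89 (b : Bx) : TM := tadd (t75 b) (t76 b)
noncomputable def v89 (x1 x2 : ℝ) : ℝ := v75 x1 x2 + v76 x1 x2
theorem h89 (h : In b E x1 x2) : Enc S E (t89 b) (v89 x1 x2) := enc_add (h75 h) (h76 h)

def t90 (b : Bx) : TM := tinv S (t89 b)
noncomputable def v90 (x1 x2 : ℝ) : ℝ := (v89 x1 x2)⁻¹
theorem h90 (h : In b E x1 x2) : Enc S E (t90 b) (v90 x1 x2) := enc_inv hS (h89 h)

def t91 (b : Bx) : TM := tmul S (t69 b) (t90 b)
noncomputable def v91 (x1 x2 : ℝ) : ℝ := v69 x1 x2 * v90 x1 x2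
theorem h91 (h : In b E x1 x2) : Enc S E (t91 b) (v91 x1 x2) := enc_mul hS (h69 h) (h90 h)

def t93 (b : Bx) : TM := tnat 2 (t76 b)
noncomputable def v93 (x1 x2 : ℝ) : ℝ := ((2 : ℕ) : ℝ) * v76 x1 x2
theorem h93 (h : In b E x1 x2) : Enc S E (t93 b) (v93 x1 x2) := enc_nat 2 (h76 h)

def t94 (b : Bx) : TM := tnat 2 (t91 b)
noncomputable def v94 (x1 x2 : ℝ) : ℝ := ((2 : ℕ) : ℝ) * v91 x1 x2
theorem h94 (h : In b E x1 x2) : Enc S E (t94 b) (v94 x1 x2) := enc_nat 2 (h91 h)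

def t96 (b : Bx) : TM := tadd (t25 b) (t93 b)
noncomputable def v96 (x1 x2 : ℝ) : ℝ := v25 x1 x2 + v93 x1 x2
theorem h96 (h : In b E x1 x2) : Enc S E (t96 b) (v96 x1 x2) := enc_add (h25 h) (h93 h)

def t97 (b : Bx) : TM := tmul S (t2 b) (t67 b)
noncomputable def v97 (x1 x2 : ℝ) : ℝ := v2 x1 x2 * v67 x1 x2
theorem h97 (h : In b E x1 x2) : Enc S E (t97 b) (v97 x1 x2) := enc_mul hS (h2 h) (h67 h)

def t98 (b : Bx) : TM := tsub (t97 b) (t76 b)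
noncomputable def v98 (x1 x2 : ℝ) : ℝ := v97 x1 x2 - v76 x1 x2
theorem h98 (h : In b E x1 x2) : Enc S E (t98 b) (v98 x1 x2) := enc_sub (h97 h) (h76 h)

def t99 (b : Bx) : TM := tadd (t2 b) (t91 b)
noncomputable def v99 (x1 x2 : ℝ) : ℝ := v2 x1 x2 + v91 x1 x2
theorem h99 (h : In b E x1 x2) : Enc S E (t99 b) (v99 x1 x2) := enc_add (h2 h) (h91 h)

def t100 (b : Bx) : TM := tmul S (t96 b) (t98 b)
noncomputable def v100 (x1 x2 : ℝ) : ℝ := v96 x1 x2 * v98 x1 x2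
theorem h100 (h : In b E x1 x2) : Enc S E (t100 b) (v100 x1 x2) := enc_mul hS (h96 h) (h98 h)

def t101 (b : Bx) : TM := tmul S (t94 b) (t80 b)
noncomputable def v101 (x1 x2 : ℝ) : ℝ := v94 x1 x2 * v80 x1 x2
theorem h101 (h : In b E x1 x2) : Enc S E (t101 b) (v101 x1 x2) := enc_mul hS (h94 h) (h80 h)

def t103 (b : Bx) : TM := tmul S (t96 b) (t99 b)
noncomputable def v103 (x1 x2 : ℝ) : ℝ := v96 x1 x2 * v99 x1 x2
theorem h103 (h : In b E x1 x2) : Enc S E (t103 b) (v103 x1 x2) := enc_mul hS (h96 h) (h99 h)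

def t104 (b : Bx) : TM := tsub (t103 b) (t101 b)
noncomputable def v104 (x1 x2 : ℝ) : ℝ := v103 x1 x2 - v101 x1 x2
theorem h104 (h : In b E x1 x2) : Enc S E (t104 b) (v104 x1 x2) := enc_sub (h103 h) (h101 h)

def t105 (b : Bx) : TM := tadd (t25 b) (t97 b)
noncomputable def v105 (x1 x2 : ℝ) : ℝ := v25 x1 x2 + v97 x1 x2
theorem h105 (h : In b E x1 x2) : Enc S E (t105 b) (v105 x1 x2) := enc_add (h25 h) (h97 h)

def t106 (b : Bx) : TM := tsub (t105 b) (t76 b)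
noncomputable def v106 (x1 x2 : ℝ) : ℝ := v105 x1 x2 - v76 x1 x2
theorem h106 (h : In b E x1 x2) : Enc S E (t106 b) (v106 x1 x2) := enc_sub (h105 h) (h76 h)

def t107 (b : Bx) : TM := tnat 2 (t106 b)
noncomputable def v107 (x1 x2 : ℝ) : ℝ := ((2 : ℕ) : ℝ) * v106 x1 x2
theorem h107 (h : In b E x1 x2) : Enc S E (t107 b) (v107 x1 x2) := enc_nat 2 (h106 h)

def t108 (b : Bx) : TM := tnat 2 (t99 b)
noncomputable def v108 (x1 x2 : ℝ) : ℝ := ((2 : ℕ) : ℝ) * v99 x1 x2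
theorem h108 (h : In b E x1 x2) : Enc S E (t108 b) (v108 x1 x2) := enc_nat 2 (h99 h)

def t109 (b : Bx) : TM := tinv S (t107 b)
noncomputable def v109 (x1 x2 : ℝ) : ℝ := (v107 x1 x2)⁻¹
theorem h109 (h : In b E x1 x2) : Enc S E (t109 b) (v109 x1 x2) := enc_inv hS (h107 h)

def t110 (b : Bx) : TM := tmul S (t85 b) (t109 b)
noncomputable def v110 (x1 x2 : ℝ) : ℝ := v85 x1 x2 * v109 x1 x2
theorem h110 (h : In b E x1 x2) : Enc S E (t110 b) (v110 x1 x2) := enc_mul hS (h85 h) (h109 h)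

def t111 (b : Bx) : TM := tmul S (t108 b) (t110 b)
noncomputable def v111 (x1 x2 : ℝ) : ℝ := v108 x1 x2 * v110 x1 x2
theorem h111 (h : In b E x1 x2) : Enc S E (t111 b) (v111 x1 x2) := enc_mul hS (h108 h) (h110 h)

def t114 (b : Bx) : TM := tmul S (t104 b) (t85 b)
noncomputable def v114 (x1 x2 : ℝ) : ℝ := v104 x1 x2 * v85 x1 x2
theorem h114 (h : In b E x1 x2) : Enc S E (t114 b) (v114 x1 x2) := enc_mul hS (h104 h) (h85 h)

def t115 (b : Bx) : TM := tmul S (t100 b) (t111 b)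
noncomputable def v115 (x1 x2 : ℝ) : ℝ := v100 x1 x2 * v111 x1 x2
theorem h115 (h : In b E x1 x2) : Enc S E (t115 b) (v115 x1 x2) := enc_mul hS (h100 h) (h111 h)

def t117 (b : Bx) : TM := tsub (t114 b) (t115 b)
noncomputable def v117 (x1 x2 : ℝ) : ℝ := v114 x1 x2 - v115 x1 x2
theorem h117 (h : In b E x1 x2) : Enc S E (t117 b) (v117 x1 x2) := enc_sub (h114 h) (h115 h)

def t118 (b : Bx) : TM := kxq1_t (t73 b) (t29 b)
noncomputable def v118 (x1 x2 : ℝ) : ℝ := kxq1_v (v73 x1 x2) (v29 x1 x2)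
theorem h118 (h : In b E x1 x2) : Enc S E (t118 b) (v118 x1 x2) := kxq1_enc (h73 h) (h29 h)

def t119 (b : Bx) : TM := tadd (t73 b) (t75 b)
noncomputable def v119 (x1 x2 : ℝ) : ℝ := v73 x1 x2 + v75 x1 x2
theorem h119 (h : In b E x1 x2) : Enc S E (t119 b) (v119 x1 x2) := enc_add (h73 h) (h75 h)

def t120 (b : Bx) : TM := f2m_t (t29 b)
noncomputable def v120 (x1 x2 : ℝ) : ℝ := f2m_v (v29 x1 x2)
theorem h120 (h : In b E x1 x2) : Enc S E (t120 b) (v120 x1 x2) := f2m_enc (h29 h)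

def t121 (b : Bx) : TM := tsub (t120 b) (t73 b)
noncomputable def v121 (x1 x2 : ℝ) : ℝ := v120 x1 x2 - v73 x1 x2
theorem h121 (h : In b E x1 x2) : Enc S E (t121 b) (v121 x1 x2) := enc_sub (h120 h) (h73 h)

def t127 (b : Bx) : TM := tmul S (t71 b) (t118 b)
noncomputable def v127 (x1 x2 : ℝ) : ℝ := v71 x1 x2 * v118 x1 x2
theorem h127 (h : In b E x1 x2) : Enc S E (t127 b) (v127 x1 x2) := enc_mul hS (h71 h) (h118 h)

def t128 (b : Bx) : TM := tinv S (t119 b)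
noncomputable def v128 (x1 x2 : ℝ) : ℝ := (v119 x1 x2)⁻¹
theorem h128 (h : In b E x1 x2) : Enc S E (t128 b) (v128 x1 x2) := enc_inv hS (h119 h)

def t129 (b : Bx) : TM := tmul S (t127 b) (t128 b)
noncomputable def v129 (x1 x2 : ℝ) : ℝ := v127 x1 x2 * v128 x1 x2
theorem h129 (h : In b E x1 x2) : Enc S E (t129 b) (v129 x1 x2) := enc_mul hS (h127 h) (h128 h)

def t130 (b : Bx) : TM := tadd (t117 b) (t129 b)
noncomputable def v130 (x1 x2 : ℝ) : ℝ := v117 x1 x2 + v129 x1 x2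
theorem h130 (h : In b E x1 x2) : Enc S E (t130 b) (v130 x1 x2) := enc_add (h117 h) (h129 h)

def t132 (b : Bx) : TM := tmul S (t7 b) (t1 b)
noncomputable def v132 (x1 x2 : ℝ) : ℝ := v7 x1 x2 * v1 x1 x2
theorem h132 (h : In b E x1 x2) : Enc S E (t132 b) (v132 x1 x2) := enc_mul hS (h7 h) (h1 h)

def t133 (b : Bx) : TM := tmul S (t27 b) (t0 b)
noncomputable def v133 (x1 x2 : ℝ) : ℝ := v27 x1 x2 * v0 x1 x2
theorem h133 (h : In b E x1 x2) : Enc S E (t133 b) (v133 x1 x2) := enc_mul hS (h27 h) (h0 h)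

def t134 (b : Bx) : TM := tsub (t132 b) (t133 b)
noncomputable def v134 (x1 x2 : ℝ) : ℝ := v132 x1 x2 - v133 x1 x2
theorem h134 (h : In b E x1 x2) : Enc S E (t134 b) (v134 x1 x2) := enc_sub (h132 h) (h133 h)

def t135 (b : Bx) : TM := tmul S (t134 b) (t8 b)
noncomputable def v135 (x1 x2 : ℝ) : ℝ := v134 x1 x2 * v8 x1 x2
theorem h135 (h : In b E x1 x2) : Enc S E (t135 b) (v135 x1 x2) := enc_mul hS (h134 h) (h8 h)

def t136 (b : Bx) : TM := tsub (t135 b) (t12 b)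
noncomputable def v136 (x1 x2 : ℝ) : ℝ := v135 x1 x2 - v12 x1 x2
theorem h136 (h : In b E x1 x2) : Enc S E (t136 b) (v136 x1 x2) := enc_sub (h135 h) (h12 h)

def t139 (b : Bx) : TM := tmul S (t60 b) (t0 b)
noncomputable def v139 (x1 x2 : ℝ) : ℝ := v60 x1 x2 * v0 x1 x2
theorem h139 (h : In b E x1 x2) : Enc S E (t139 b) (v139 x1 x2) := enc_mul hS (h60 h) (h0 h)

def t142 (b : Bx) : TM := tadd (t7 b) (t139 b)
noncomputable def v142 (x1 x2 : ℝ) : ℝ := v7 x1 x2 + v139 x1 x2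
theorem h142 (h : In b E x1 x2) : Enc S E (t142 b) (v142 x1 x2) := enc_add (h7 h) (h139 h)

def t144 (b : Bx) : TM := tmul S (t142 b) (t8 b)
noncomputable def v144 (x1 x2 : ℝ) : ℝ := v142 x1 x2 * v8 x1 x2
theorem h144 (h : In b E x1 x2) : Enc S E (t144 b) (v144 x1 x2) := enc_mul hS (h142 h) (h8 h)

def t146 (b : Bx) : TM := tsub (t29 b) (t3 b)
noncomputable def v146 (x1 x2 : ℝ) : ℝ := v29 x1 x2 - v3 x1 x2
theorem h146 (h : In b E x1 x2) : Enc S E (t146 b) (v146 x1 x2) := enc_sub (h29 h) (h3 h)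

def t147 (b : Bx) : TM := tsub (t1 b) (t3 b)
noncomputable def v147 (x1 x2 : ℝ) : ℝ := v1 x1 x2 - v3 x1 x2
theorem h147 (h : In b E x1 x2) : Enc S E (t147 b) (v147 x1 x2) := enc_sub (h1 h) (h3 h)

def t148 (b : Bx) : TM := tnat 2 (t21 b)
noncomputable def v148 (x1 x2 : ℝ) : ℝ := ((2 : ℕ) : ℝ) * v21 x1 x2
theorem h148 (h : In b E x1 x2) : Enc S E (t148 b) (v148 x1 x2) := enc_nat 2 (h21 h)

def t149 (b : Bx) : TM := tnat 2 (t60 b)
noncomputable def v149 (x1 x2 : ℝ) : ℝ := ((2 : ℕ) : ℝ) * v60 x1 x2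
theorem h149 (h : In b E x1 x2) : Enc S E (t149 b) (v149 x1 x2) := enc_nat 2 (h60 h)

def t151 (b : Bx) : TM := tadd (t25 b) (t148 b)
noncomputable def v151 (x1 x2 : ℝ) : ℝ := v25 x1 x2 + v148 x1 x2
theorem h151 (h : In b E x1 x2) : Enc S E (t151 b) (v151 x1 x2) := enc_add (h25 h) (h148 h)

def t152 (b : Bx) : TM := tmul S (t2 b) (t22 b)
noncomputable def v152 (x1 x2 : ℝ) : ℝ := v2 x1 x2 * v22 x1 x2
theorem h152 (h : In b E x1 x2) : Enc S E (t152 b) (v152 x1 x2) := enc_mul hS (h2 h) (h22 h)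

def t153 (b : Bx) : TM := tsub (t152 b) (t21 b)
noncomputable def v153 (x1 x2 : ℝ) : ℝ := v152 x1 x2 - v21 x1 x2
theorem h153 (h : In b E x1 x2) : Enc S E (t153 b) (v153 x1 x2) := enc_sub (h152 h) (h21 h)

def t154 (b : Bx) : TM := tadd (t2 b) (t60 b)
noncomputable def v154 (x1 x2 : ℝ) : ℝ := v2 x1 x2 + v60 x1 x2
theorem h154 (h : In b E x1 x2) : Enc S E (t154 b) (v154 x1 x2) := enc_add (h2 h) (h60 h)

def t155 (b : Bx) : TM := tmul S (t151 b) (t153 b)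
noncomputable def v155 (x1 x2 : ℝ) : ℝ := v151 x1 x2 * v153 x1 x2
theorem h155 (h : In b E x1 x2) : Enc S E (t155 b) (v155 x1 x2) := enc_mul hS (h151 h) (h153 h)

def t156 (b : Bx) : TM := tmul S (t149 b) (t42 b)
noncomputable def v156 (x1 x2 : ℝ) : ℝ := v149 x1 x2 * v42 x1 x2
theorem h156 (h : In b E x1 x2) : Enc S E (t156 b) (v156 x1 x2) := enc_mul hS (h149 h) (h42 h)

def t158 (b : Bx) : TM := tmul S (t151 b) (t154 b)
noncomputable def v158 (x1 x2 : ℝ) : ℝ := v151 x1 x2 * v154 x1 x2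
theorem h158 (h : In b E x1 x2) : Enc S E (t158 b) (v158 x1 x2) := enc_mul hS (h151 h) (h154 h)

def t159 (b : Bx) : TM := tsub (t158 b) (t156 b)
noncomputable def v159 (x1 x2 : ℝ) : ℝ := v158 x1 x2 - v156 x1 x2
theorem h159 (h : In b E x1 x2) : Enc S E (t159 b) (v159 x1 x2) := enc_sub (h158 h) (h156 h)

def t160 (b : Bx) : TM := tadd (t25 b) (t152 b)
noncomputable def v160 (x1 x2 : ℝ) : ℝ := v25 x1 x2 + v152 x1 x2
theorem h160 (h : In b E x1 x2) : Enc S E (t160 b) (v160 x1 x2) := enc_add (h25 h) (h152 h)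

def t161 (b : Bx) : TM := tsub (t160 b) (t21 b)
noncomputable def v161 (x1 x2 : ℝ) : ℝ := v160 x1 x2 - v21 x1 x2
theorem h161 (h : In b E x1 x2) : Enc S E (t161 b) (v161 x1 x2) := enc_sub (h160 h) (h21 h)

def t162 (b : Bx) : TM := tnat 2 (t161 b)
noncomputable def v162 (x1 x2 : ℝ) : ℝ := ((2 : ℕ) : ℝ) * v161 x1 x2
theorem h162 (h : In b E x1 x2) : Enc S E (t162 b) (v162 x1 x2) := enc_nat 2 (h161 h)

def t163 (b : Bx) : TM := tnat 2 (t154 b)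
noncomputable def v163 (x1 x2 : ℝ) : ℝ := ((2 : ℕ) : ℝ) * v154 x1 x2
theorem h163 (h : In b E x1 x2) : Enc S E (t163 b) (v163 x1 x2) := enc_nat 2 (h154 h)

def t164 (b : Bx) : TM := tinv S (t162 b)
noncomputable def v164 (x1 x2 : ℝ) : ℝ := (v162 x1 x2)⁻¹
theorem h164 (h : In b E x1 x2) : Enc S E (t164 b) (v164 x1 x2) := enc_inv hS (h162 h)

def t165 (b : Bx) : TM := tmul S (t47 b) (t164 b)
noncomputable def v165 (x1 x2 : ℝ) : ℝ := v47 x1 x2 * v164 x1 x2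
theorem h165 (h : In b E x1 x2) : Enc S E (t165 b) (v165 x1 x2) := enc_mul hS (h47 h) (h164 h)

def t166 (b : Bx) : TM := tmul S (t163 b) (t165 b)
noncomputable def v166 (x1 x2 : ℝ) : ℝ := v163 x1 x2 * v165 x1 x2
theorem h166 (h : In b E x1 x2) : Enc S E (t166 b) (v166 x1 x2) := enc_mul hS (h163 h) (h165 h)

def t169 (b : Bx) : TM := tmul S (t159 b) (t47 b)
noncomputable def v169 (x1 x2 : ℝ) : ℝ := v159 x1 x2 * v47 x1 x2
theorem h169 (h : In b E x1 x2) : Enc S E (t169 b) (v169 x1 x2) := enc_mul hS (h159 h) (h47 h)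

def t170 (b : Bx) : TM := tmul S (t155 b) (t166 b)
noncomputable def v170 (x1 x2 : ℝ) : ℝ := v155 x1 x2 * v166 x1 x2
theorem h170 (h : In b E x1 x2) : Enc S E (t170 b) (v170 x1 x2) := enc_mul hS (h155 h) (h166 h)

def t172 (b : Bx) : TM := tsub (t169 b) (t170 b)
noncomputable def v172 (x1 x2 : ℝ) : ℝ := v169 x1 x2 - v170 x1 x2
theorem h172 (h : In b E x1 x2) : Enc S E (t172 b) (v172 x1 x2) := enc_sub (h169 h) (h170 h)

def t173 (b : Bx) : TM := tadd (t172 b) (t130 b)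
noncomputable def v173 (x1 x2 : ℝ) : ℝ := v172 x1 x2 + v130 x1 x2
theorem h173 (h : In b E x1 x2) : Enc S E (t173 b) (v173 x1 x2) := enc_add (h172 h) (h130 h)

def t175 (b : Bx) : TM := tmul S (t0 b) (t172 b)
noncomputable def v175 (x1 x2 : ℝ) : ℝ := v0 x1 x2 * v172 x1 x2
theorem h175 (h : In b E x1 x2) : Enc S E (t175 b) (v175 x1 x2) := enc_mul hS (h0 h) (h172 h)

def t176 (b : Bx) : TM := tadd (t175 b) (t37 b)
noncomputable def v176 (x1 x2 : ℝ) : ℝ := v175 x1 x2 + v37 x1 x2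
theorem h176 (h : In b E x1 x2) : Enc S E (t176 b) (v176 x1 x2) := enc_add (h175 h) (h37 h)

def t183 (b : Bx) : TM := tsub (t3 b) (t1 b)
noncomputable def v183 (x1 x2 : ℝ) : ℝ := v3 x1 x2 - v1 x1 x2
theorem h183 (h : In b E x1 x2) : Enc S E (t183 b) (v183 x1 x2) := enc_sub (h3 h) (h1 h)

def t184 (b : Bx) : TM := qn_t (t183 b) (t0 b) (t144 b) (t176 b) (t173 b)
noncomputable def v184 (x1 x2 : ℝ) : ℝ := qn_v (v183 x1 x2) (v0 x1 x2) (v144 x1 x2) (v176 x1 x2) (v173 x1 x2)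
theorem h184 (h : In b E x1 x2) : Enc S E (t184 b) (v184 x1 x2) := qn_enc (h183 h) (h0 h) (h144 h) (h176 h) (h173 h)

def t185 (b : Bx) : TM := tscale 1 4 (t2 b)
noncomputable def v185 (x1 x2 : ℝ) : ℝ := ((1 : ℕ) : ℝ) / ((4 : ℕ) : ℝ) * v2 x1 x2
theorem h185 (h : In b E x1 x2) : Enc S E (t185 b) (v185 x1 x2) := enc_scale 1 (by norm_num) (h2 h)

def t187 (b : Bx) : TM := tsub (t0 b) (t185 b)
noncomputable def v187 (x1 x2 : ℝ) : ℝ := v0 x1 x2 - v185 x1 x2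
theorem h187 (h : In b E x1 x2) : Enc S E (t187 b) (v187 x1 x2) := enc_sub (h0 h) (h185 h)

def t189 (b : Bx) : TM := tsub (t185 b) (t29 b)
noncomputable def v189 (x1 x2 : ℝ) : ℝ := v185 x1 x2 - v29 x1 x2
theorem h189 (h : In b E x1 x2) : Enc S E (t189 b) (v189 x1 x2) := enc_sub (h185 h) (h29 h)

def t191 (b : Bx) : TM := tsub (t185 b) (t1 b)
noncomputable def v191 (x1 x2 : ℝ) : ℝ := v185 x1 x2 - v1 x1 x2
theorem h191 (h : In b E x1 x2) : Enc S E (t191 b) (v191 x1 x2) := enc_sub (h185 h) (h1 h)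

def t192 (_b : Bx) : TM := tconst (Nat.div (Nat.mul 1 S) 16) 0 1
noncomputable def v192 (_x1 _x2 : ℝ) : ℝ := ((1 : ℕ) : ℝ) / ((16 : ℕ) : ℝ)
theorem h192 (_h : In b E x1 x2) : Enc S E (t192 b) (v192 x1 x2) := enc_rat E 1 (by norm_num)

def t193 (b : Bx) : TM := tsub (t23 b) (t192 b)
noncomputable def v193 (x1 x2 : ℝ) : ℝ := v23 x1 x2 - v192 x1 x2
theorem h193 (h : In b E x1 x2) : Enc S E (t193 b) (v193 x1 x2) := enc_sub (h23 h) (h192 h)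

def t194 (b : Bx) : TM := tsub (t22 b) (t1 b)
noncomputable def v194 (x1 x2 : ℝ) : ℝ := v22 x1 x2 - v1 x1 x2
theorem h194 (h : In b E x1 x2) : Enc S E (t194 b) (v194 x1 x2) := enc_sub (h22 h) (h1 h)

def t195 (b : Bx) : TM := tsub (t194 b) (t192 b)
noncomputable def v195 (x1 x2 : ℝ) : ℝ := v194 x1 x2 - v192 x1 x2
theorem h195 (h : In b E x1 x2) : Enc S E (t195 b) (v195 x1 x2) := enc_sub (h194 h) (h192 h)

def t196 (b : Bx) : TM := tsub (t0 b) (t1 b)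
noncomputable def v196 (x1 x2 : ℝ) : ℝ := v0 x1 x2 - v1 x1 x2
theorem h196 (h : In b E x1 x2) : Enc S E (t196 b) (v196 x1 x2) := enc_sub (h0 h) (h1 h)

def t197 (b : Bx) : TM := tsub (t25 b) (t51 b)
noncomputable def v197 (x1 x2 : ℝ) : ℝ := v25 x1 x2 - v51 x1 x2
theorem h197 (h : In b E x1 x2) : Enc S E (t197 b) (v197 x1 x2) := enc_sub (h25 h) (h51 h)

def t198 (b : Bx) : TM := tadd (t136 b) (t12 b)
noncomputable def v198 (x1 x2 : ℝ) : ℝ := v136 x1 x2 + v12 x1 x2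
theorem h198 (h : In b E x1 x2) : Enc S E (t198 b) (v198 x1 x2) := enc_add (h136 h) (h12 h)

def t199 (b : Bx) : TM := tneg (t198 b)
noncomputable def v199 (x1 x2 : ℝ) : ℝ := -(v198 x1 x2)
theorem h199 (h : In b E x1 x2) : Enc S E (t199 b) (v199 x1 x2) := enc_neg (h198 h)

def g0 (b : Bx) : Bool := and (pos (t71 b)) (and (pos (t26 b)) (and (pos (t58 b)) (and (pos (t74 b)) (and (pos (t89 b)) (and (pos (t84 b)) (and (pos (t107 b)) (and (pos (t119 b)) (and (pos (t121 b)) (and (pos (t46 b)) (and (pos (t162 b)) (and (pos (t35 b)) (or (pos (t194 b)) (pos (t184 b))))))))))))))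

def l0 (b : Bx) : Nat := cond (g0 b) 0 (pickb 1 (t184 b) b)

def P0 (x1 x2 : ℝ) : Prop := 0 < v71 x1 x2 ∧ 0 < v26 x1 x2 ∧ 0 < v58 x1 x2 ∧ 0 < v74 x1 x2 ∧ 0 < v89 x1 x2 ∧ 0 < v84 x1 x2 ∧ 0 < v107 x1 x2 ∧ 0 < v119 x1 x2 ∧ 0 < v121 x1 x2 ∧ 0 < v46 x1 x2 ∧ 0 < v162 x1 x2 ∧ 0 < v35 x1 x2 ∧ (0 < v194 x1 x2 ∨ 0 < v184 x1 x2)

theorem l0_sound (h : In b E x1 x2) (e : l0 b = 0) : P0 x1 x2 := by
  have e1 : g0 b = true := by
    rcases e2 : g0 b with _ | _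
    · unfold l0 at e; rw [e2, cond_false] at e; exact absurd e (pickb_ne _ _ _)
    · rfl
  exact ⟨pos_sound hS (h71 h) (Bool.and_eq_true_iff.mp e1).1, ⟨pos_sound hS (h26 h) (Bool.and_eq_true_iff.mp (Bool.and_eq_true_iff.mp e1).2).1, ⟨pos_sound hS (h58 h) (Bool.and_eq_true_iff.mp (Bool.and_eq_true_iff.mp (Bool.and_eq_true_iff.mp e1).2).2).1, ⟨pos_sound hS (h74 h) (Bool.and_eq_true_iff.mp (Bool.and_eq_true_iff.mp (Bool.and_eq_true_iff.mp (Bool.and_eq_true_iff.mp e1).2).2).2).1, ⟨pos_sound hS (h89 h) (Bool.and_eq_true_iff.mp (Bool.and_eq_true_iff.mp (Bool.and_eq_true_iff.mp (Bool.and_eq_true_iff.mp (Bool.and_eq_true_iff.mp e1).2).2).2).2).1, ⟨pos_sound hS (h84 h) (Bool.and_eq_true_iff.mp (Bool.and_eq_true_iff.mp (Bool.and_eq_true_iff.mp (Bool.and_eq_true_iff.mp (Bool.and_eq_true_iff.mp (Bool.and_eq_true_iff.mp e1).2).2).2).2).2).1, ⟨pos_sound hS (h107 h) (Bool.and_eq_true_iff.mp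 (Bool.and_eq_true_iff.mp (Bool.and_eq_true_iff.mp (Bool.and_eq_true_iff.mp (Bool.and_eq_true_iff.mp (Bool.and_eq_true_iff.mp (Bool.and_eq_true_iff.mp e1).2).2).2).2).2).2).1, ⟨pos_sound hS (h119 h) (Bool.and_eq_true_iff.mp (Bool.and_eq_true_iff.mp (Bool.and_eq_true_iff.mp (Bool.and_eq_true_iff.mp (Bool.and_eq_true_iff.mp (Bool.and_eq_true_iff.mp (Bool.and_eq_true_iff.mp (Bool.and_eq_true_iff.mp e1).2).2).2).2).2).2).2).1, ⟨pos_sound hS (h121 h) (Bool.and_eq_true_iff.mp (Bool.and_eq_true_iff.mp (Bool.and_eq_true_iff.mp (Bool.and_eq_true_iff.mp (Bool.and_eq_true_iff.mp (Bool.and_eq_true_iff.mp (Bool.and_eq_true_iff.mp (Bool.and_eq_true_iff.mp (Bool.and_eq_true_iff.mp e1).2).2).2).2).2).2).2).2).1, ⟨pos_sound hS (h46 h) (Bool.and_eq_true_iff.mp (Bool.and_eq_true_iff.mp (Bool.and_eq_true_iff.mp (Bool.and_eq_true_iff.mp (Bool.and_eq_true_iff.mp (Bool.and_eq_true_iff.mp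 (Bool.and_eq_true_iff.mp (Bool.and_eq_true_iff.mp (Bool.and_eq_true_iff.mp (Bool.and_eq_true_iff.mp e1).2).2).2).2).2).2).2).2).2).1, ⟨pos_sound hS (h162 h) (Bool.and_eq_true_iff.mp (Bool.and_eq_true_iff.mp (Bool.and_eq_true_iff.mp (Bool.and_eq_true_iff.mp (Bool.and_eq_true_iff.mp (Bool.and_eq_true_iff.mp (Bool.and_eq_true_iff.mp (Bool.and_eq_true_iff.mp (Bool.and_eq_true_iff.mp (Bool.and_eq_true_iff.mp (Bool.and_eq_true_iff.mp e1).2).2).2).2).2).2).2).2).2).2).1, ⟨pos_sound hS (h35 h) (Bool.and_eq_true_iff.mp (Bool.and_eq_true_iff.mp (Bool.and_eq_true_iff.mp (Bool.and_eq_true_iff.mp (Bool.and_eq_true_iff.mp (Bool.and_eq_true_iff.mp (Bool.and_eq_true_iff.mp (Bool.and_eq_true_iff.mp (Bool.and_eq_true_iff.mp (Bool.and_eq_true_iff.mp (Bool.and_eq_true_iff.mp (Bool.and_eq_true_iff.mp e1).2).2).2).2).2).2).2).2).2).2).2).1, ((Bool.or_eq_true_iff.mp (Bool.and_eq_true_iff.mp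 (Bool.and_eq_true_iff.mp (Bool.and_eq_true_iff.mp (Bool.and_eq_true_iff.mp (Bool.and_eq_true_iff.mp (Bool.and_eq_true_iff.mp (Bool.and_eq_true_iff.mp (Bool.and_eq_true_iff.mp (Bool.and_eq_true_iff.mp (Bool.and_eq_true_iff.mp (Bool.and_eq_true_iff.mp (Bool.and_eq_true_iff.mp e1).2).2).2).2).2).2).2).2).2).2).2).2).imp (fun a => pos_sound hS (h194 h) a) (fun a => pos_sound hS (h184 h) a))⟩⟩⟩⟩⟩⟩⟩⟩⟩⟩⟩⟩

def g1 (b : Bx) : Bool := or (pos (t187 b)) (or (pos (t189 b)) (or (pos (t146 b)) (or (pos (t191 b)) (or (pos (t147 b)) (or (pos (t193 b)) (or (pos (t195 b)) (or (pos (t196 b)) (or (pos (t197 b)) (pos (t199 b))))))))))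

def l1 (b : Bx) : Nat := cond (g1 b) 0 (l0 b)

def P1 (x1 x2 : ℝ) : Prop := (0 < v187 x1 x2 ∨ 0 < v189 x1 x2 ∨ 0 < v146 x1 x2 ∨ 0 < v191 x1 x2 ∨ 0 < v147 x1 x2 ∨ 0 < v193 x1 x2 ∨ 0 < v195 x1 x2 ∨ 0 < v196 x1 x2 ∨ 0 < v197 x1 x2 ∨ 0 < v199 x1 x2) ∨ (P0 x1 x2)

theorem l1_sound (h : In b E x1 x2) (e : l1 b = 0) : P1 x1 x2 := by
  unfold l1 at e
  rcases e1 : g1 b with _ | _
  · rw [e1, cond_false] at e
    have z0 : l0 b = 0 := e
    exact Or.inr (l0_sound h z0)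
  · exact Or.inl (((Bool.or_eq_true_iff.mp e1).imp (fun a => pos_sound hS (h187 h) a) (fun a => ((Bool.or_eq_true_iff.mp a).imp (fun a => pos_sound hS (h189 h) a) (fun a => ((Bool.or_eq_true_iff.mp a).imp (fun a => pos_sound hS (h146 h) a) (fun a => ((Bool.or_eq_true_iff.mp a).imp (fun a => pos_sound hS (h191 h) a) (fun a => ((Bool.or_eq_true_iff.mp a).imp (fun a => pos_sound hS (h147 h) a) (fun a => ((Bool.or_eq_true_iff.mp a).imp (fun a => pos_sound hS (h193 h) a) (fun a => ((Bool.or_eq_true_iff.mp a).imp (fun a => pos_sound hS (h195 h) a) (fun a => ((Bool.or_eq_true_iff.mp a).imp (fun a => pos_sound hS (h196 h) a) (fun a => ((Bool.or_eq_true_iff.mp a).imp (fun a => pos_sound hS (h197 h) a) (fun a => pos_sound hS (h199 h) a)))))))))))))))))))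

def f (b : Bx) : Nat := l1 b

/-- the statement -/
def Q (x1 x2 : ℝ) : Prop := P1 x1 x2

theorem f_sound (b : Bx) (hb : f b = 0) (x1 x2 : ℝ) (hm : Mem S b x1 x2) : Q x1 x2 := by
  obtain ⟨E, h⟩ := pt_of_mem hm
  have h : In b E x1 x2 := h
  unfold f at hb
  have e := hb
  have z1 : l1 b = 0 := e
  exact (l1_sound h z1)

/-- the box -/
def b0 : Bx := ⟨232471924, 0, 232471926, 697415773, 0, 232471926⟩

theorem chk_all {n : ℕ} {b : Bx} (h : chk f n b = true) (x1 x2 : ℝ) (hm : Mem S b x1 x2) : Q x1 x2 :=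
  chk_sound (fun b hb x1 x2 hm => f_sound b hb x1 x2 hm) n b h x1 x2 hm


end Pool.Agent.Strip051.LB.ChB30V3_pp_011
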