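import Pool.Agent.Strip051.LB.ChB30V3_pp_011.Defs
import Pool.Agent.Strip051.LB.Slope
import Pool.Agent.Strip051.LB.Star
import Pool.Agent.Strip051.LB.Cf

/-! # LINE tight chart ChB30V3_pp_011: slopes -/

namespace Pool.Agent.Strip051.LB.ChB30V3_pp_011

open Pool.Agent.Strip051.LB Pool.Agent.Strip051.LB.Fn Pool.Agent.Strip051.LB.Fc Pool.Agent.StripNear

set_option maxRecDepth 100000
set_option linter.all false

noncomputable def v38 (x1 x2 : ℝ) : ℝ := -(v37 x1 x2)

noncomputable def v39 (x1 x2 : ℝ) : ℝ := ((2 : ℕ) : ℝ) * v27 x1 x2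

noncomputable def v40 (x1 x2 : ℝ) : ℝ := v25 x1 x2 + v39 x1 x2

noncomputable def v43 (x1 x2 : ℝ) : ℝ := v40 x1 x2 * v42 x1 x2

noncomputable def v48 (x1 x2 : ℝ) : ℝ := v43 x1 x2 * v47 x1 x2

noncomputable def v52 (x1 x2 : ℝ) : ℝ := v51 x1 x2 - v25 x1 x2

noncomputable def v54 (x1 x2 : ℝ) : ℝ := (v22 x1 x2) ^ 2

noncomputable def v56 (x1 x2 : ℝ) : ℝ := v25 x1 x2 - v54 x1 x2

noncomputable def v57 (x1 x2 : ℝ) : ℝ := -(v55 x1 x2)

noncomputable def v61 (x1 x2 : ℝ) : ℝ := -(v60 x1 x2)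

noncomputable def v63 (x1 x2 : ℝ) : ℝ := (v62 x1 x2) ^ 2

noncomputable def v66 (x1 x2 : ℝ) : ℝ := -(v65 x1 x2)

noncomputable def v68 (x1 x2 : ℝ) : ℝ := (v67 x1 x2) ^ 2

noncomputable def v70 (x1 x2 : ℝ) : ℝ := v63 x1 x2 + v68 x1 x2

noncomputable def v72 (x1 x2 : ℝ) : ℝ := v70 x1 x2 - v25 x1 x2

noncomputable def v77 (x1 x2 : ℝ) : ℝ := ((2 : ℕ) : ℝ) * v75 x1 x2

noncomputable def v78 (x1 x2 : ℝ) : ℝ := v25 x1 x2 + v77 x1 x2

noncomputable def v81 (x1 x2 : ℝ) : ℝ := v78 x1 x2 * v80 x1 x2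

noncomputable def v86 (x1 x2 : ℝ) : ℝ := v81 x1 x2 * v85 x1 x2

noncomputable def v87 (x1 x2 : ℝ) : ℝ := v25 x1 x2 - v68 x1 x2

noncomputable def v88 (x1 x2 : ℝ) : ℝ := -(v69 x1 x2)

noncomputable def v92 (x1 x2 : ℝ) : ℝ := -(v91 x1 x2)

noncomputable def v95 (x1 x2 : ℝ) : ℝ := -(v94 x1 x2)

noncomputable def v112 (x1 x2 : ℝ) : ℝ := -(v111 x1 x2)

noncomputable def v113 (x1 x2 : ℝ) : ℝ := v100 x1 x2 * v109 x1 x2

noncomputable def v122 (x1 x2 : ℝ) : ℝ := v73 x1 x2 - v75 x1 x2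

noncomputable def v123 (x1 x2 : ℝ) : ℝ := v122 x1 x2 * v118 x1 x2

noncomputable def v124 (x1 x2 : ℝ) : ℝ := v86 x1 x2 + v123 x1 x2

noncomputable def v125 (x1 x2 : ℝ) : ℝ := -(v124 x1 x2)

noncomputable def v126 (x1 x2 : ℝ) : ℝ := -(v113 x1 x2)

noncomputable def v131 (x1 x2 : ℝ) : ℝ := -(v130 x1 x2)

noncomputable def v137 (x1 x2 : ℝ) : ℝ := v7 x1 x2 * v22 x1 x2

noncomputable def v138 (x1 x2 : ℝ) : ℝ := v21 x1 x2 * v0 x1 x2

noncomputable def v140 (x1 x2 : ℝ) : ℝ := -(v139 x1 x2)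

noncomputable def v141 (x1 x2 : ℝ) : ℝ := v137 x1 x2 - v138 x1 x2

noncomputable def v143 (x1 x2 : ℝ) : ℝ := v141 x1 x2 * v8 x1 x2

noncomputable def v145 (x1 x2 : ℝ) : ℝ := v143 x1 x2 - v12 x1 x2

noncomputable def v150 (x1 x2 : ℝ) : ℝ := -(v149 x1 x2)

noncomputable def v167 (x1 x2 : ℝ) : ℝ := -(v166 x1 x2)

noncomputable def v168 (x1 x2 : ℝ) : ℝ := v155 x1 x2 * v164 x1 x2

noncomputable def v174 (x1 x2 : ℝ) : ℝ := v22 x1 x2 - v3 x1 x2

noncomputable def v200 (x1 x2 : ℝ) : ℝ := v67 x1 x2 - v3 x1 x2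

structure Cx (x1 x2 : ℝ) : Prop where
  hc : v7 x1 x2 ^ 2 + x1 ^ 2 = 3
  p26 : 0 < v26 x1 x2
  p58 : 0 < v58 x1 x2
  p74 : 0 < v74 x1 x2
  p89 : 0 < v89 x1 x2
  p84 : 0 < v84 x1 x2
  p107 : 0 < v107 x1 x2
  p119 : 0 < v119 x1 x2
  p121 : 0 < v121 x1 x2
  p46 : 0 < v46 x1 x2
  p162 : 0 < v162 x1 x2
  p35 : 0 < v35 x1 x2

variable {x1 x2 : ℝ}

theorem s3q (x1 x2 : ℝ) : v2 x1 x2 ^ 2 = 3 := by
  rw [v2]; exact s3sq

theorem s3ne (x1 x2 : ℝ) : v2 x1 x2 ≠ 0 := by
  rw [v2]; positivity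

theorem s1 (c : Cx x1 x2) : v1 x1 x2 = v22 x1 x2 + v23 x1 x2 * v25 x1 x2 := by
  simp only [v1, v19, v22, v23, v25]
  (try push_cast)
  first | ring | grind

theorem s24 (c : Cx x1 x2) : v24 x1 x2 = v54 x1 x2 + v23 x1 x2 * v55 x1 x2 := by
  have a0 : (v1 x1 x2 + v22 x1 x2) * v1 x1 x2 = (v1 x1 x2 + v22 x1 x2) * (v22 x1 x2 + v23 x1 x2 * v25 x1 x2) := congrArg (fun z => (v1 x1 x2 + v22 x1 x2) * z) (s1 c)
  try simp only [v1, v19, v22, v23, v24, v25, v54, v55] at a0
  simp only [v1, v19, v22, v23, v24, v25, v54, v55]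
  (try push_cast at a0 ⊢)
  first | linear_combination a0 | ring | grind

theorem s26 (c : Cx x1 x2) : v26 x1 x2 = v56 x1 x2 + v23 x1 x2 * v57 x1 x2 := by
  have a1 := s24 c
  try simp only [v1, v19, v22, v23, v25, v26, v55, v56, v57] at a1
  simp only [v1, v19, v22, v23, v25, v26, v55, v56, v57]
  (try push_cast at a1 ⊢)
  first | linear_combination -a1 | ring | grind

theorem q27 (c : Cx x1 x2) : v56 x1 x2 = v21 x1 x2 ^ 2 := by
  have hc := c.hc
  have h3 := s3q x1 x2
  have g0 : v2 x1 x2 ≠ 0 := s3ne x1 x2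
  simp only [v0, v3, v8, v9, v10, v13, v15, v17, v19, v21, v22, v25, v54, v56] at hc ⊢
  push_cast at hc ⊢
  grind

theorem s27 (c : Cx x1 x2) : v27 x1 x2 = v21 x1 x2 + v23 x1 x2 * v61 x1 x2 := by
  have a0 := s26 c
  have e : 0 < Real.sqrt (v26 x1 x2) + v21 x1 x2 := by
    have e := c.p58
    simp only [v15, v21, v25, v26, v27, v58] at e ⊢
    push_cast at e ⊢
    linarith
  have b := sl_sqrt a0 (q27 c) (le_of_lt c.p26) e
  clear a0
  try simp only [v1, v15, v19, v21, v22, v23, v25, v26, v27, v55, v56, v57, v58, v59, v60, v61] at b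
  simp only [v1, v15, v19, v21, v22, v23, v25, v26, v27, v55, v56, v57, v58, v59, v60, v61]
  (try push_cast at b ⊢)
  first | linear_combination b | ring | grind

theorem s28 (c : Cx x1 x2) : v28 x1 x2 = v62 x1 x2 + v23 x1 x2 * v61 x1 x2 := by
  have a0 := s27 c
  try simp only [v1, v15, v19, v21, v22, v23, v28, v61, v62] at a0
  simp only [v1, v15, v19, v21, v22, v23, v28, v61, v62]
  (try push_cast at a0 ⊢)
  first | linear_combination a0 | ring | grind

theorem s29 (c : Cx x1 x2) : v29 x1 x2 = v67 x1 x2 + v23 x1 x2 * v25 x1 x2 := by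
  have a0 := s1 c
  try simp only [v0, v1, v19, v22, v23, v25, v29, v67] at a0
  simp only [v0, v1, v19, v22, v23, v25, v29, v67]
  (try push_cast at a0 ⊢)
  first | linear_combination a0 | ring | grind

theorem s39 (c : Cx x1 x2) : v39 x1 x2 = v148 x1 x2 + v23 x1 x2 * v150 x1 x2 := by
  have a0 := s27 c
  try simp only [v1, v15, v19, v21, v22, v23, v39, v61, v148, v149, v150] at a0
  simp only [v1, v15, v19, v21, v22, v23, v39, v61, v148, v149, v150]
  (try push_cast at a0 ⊢)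
  first | linear_combination (2 : ℝ) * a0 | ring | grind

theorem s40 (c : Cx x1 x2) : v40 x1 x2 = v151 x1 x2 + v23 x1 x2 * v150 x1 x2 := by
  have a1 := s39 c
  try simp only [v1, v15, v19, v21, v22, v23, v25, v39, v40, v148, v149, v150, v151] at a1
  simp only [v1, v15, v19, v21, v22, v23, v25, v39, v40, v148, v149, v150, v151]
  (try push_cast at a1 ⊢)
  first | linear_combination a1 | ring | grind

theorem s41 (c : Cx x1 x2) : v41 x1 x2 = v152 x1 x2 + v23 x1 x2 * v2 x1 x2 := by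
  have a1 : (v2 x1 x2) * v1 x1 x2 = (v2 x1 x2) * (v22 x1 x2 + v23 x1 x2 * v25 x1 x2) := congrArg (fun z => (v2 x1 x2) * z) (s1 c)
  try simp only [v1, v2, v19, v22, v23, v25, v41, v152] at a1
  simp only [v1, v2, v19, v22, v23, v25, v41, v152]
  (try push_cast at a1 ⊢)
  first | linear_combination a1 | ring | grind

theorem s42 (c : Cx x1 x2) : v42 x1 x2 = v153 x1 x2 + v23 x1 x2 * v154 x1 x2 := by
  have a0 := s41 c
  have a1 := s27 c
  try simp only [v1, v2, v15, v19, v21, v22, v23, v42, v61, v153, v154] at a0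
  try simp only [v1, v2, v15, v19, v21, v22, v23, v42, v61, v153, v154] at a1
  simp only [v1, v2, v15, v19, v21, v22, v23, v42, v61, v153, v154]
  (try push_cast at a0 a1 ⊢)
  first | linear_combination a0 - a1 | ring | grind

theorem s43 (c : Cx x1 x2) : v43 x1 x2 = v155 x1 x2 + v23 x1 x2 * v159 x1 x2 := by
  have a0 : (v42 x1 x2) * v40 x1 x2 = (v42 x1 x2) * (v151 x1 x2 + v23 x1 x2 * v150 x1 x2) := congrArg (fun z => (v42 x1 x2) * z) (s40 c)
  have a1 : (v151 x1 x2) * v42 x1 x2 = (v151 x1 x2) * (v153 x1 x2 + v23 x1 x2 * v154 x1 x2) := congrArg (fun z => (v151 x1 x2) * z) (s42 c)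
  try simp only [v1, v2, v15, v19, v21, v22, v23, v25, v39, v40, v42, v43, v148, v149, v150, v151, v153, v154, v155, v156, v158, v159] at a0
  try simp only [v1, v2, v15, v19, v21, v22, v23, v25, v39, v40, v42, v43, v148, v149, v150, v151, v153, v154, v155, v156, v158, v159] at a1
  simp only [v1, v2, v15, v19, v21, v22, v23, v25, v39, v40, v42, v43, v148, v149, v150, v151, v153, v154, v155, v156, v158, v159]
  (try push_cast at a0 a1 ⊢)
  first | linear_combination a0 + a1 | ring | grind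

theorem s44 (c : Cx x1 x2) : v44 x1 x2 = v160 x1 x2 + v23 x1 x2 * v2 x1 x2 := by
  have a1 := s41 c
  try simp only [v1, v2, v19, v22, v23, v25, v44, v160] at a1
  simp only [v1, v2, v19, v22, v23, v25, v44, v160]
  (try push_cast at a1 ⊢)
  first | linear_combination a1 | ring | grind

theorem s45 (c : Cx x1 x2) : v45 x1 x2 = v161 x1 x2 + v23 x1 x2 * v154 x1 x2 := by
  have a0 := s44 c
  have a1 := s27 c
  try simp only [v1, v2, v15, v19, v21, v22, v23, v25, v44, v45, v61, v154, v160, v161] at a0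
  try simp only [v1, v2, v15, v19, v21, v22, v23, v25, v44, v45, v61, v154, v160, v161] at a1
  simp only [v1, v2, v15, v19, v21, v22, v23, v25, v44, v45, v61, v154, v160, v161]
  (try push_cast at a0 a1 ⊢)
  first | linear_combination a0 - a1 | ring | grind

theorem s46 (c : Cx x1 x2) : v46 x1 x2 = v162 x1 x2 + v23 x1 x2 * v163 x1 x2 := by
  have a0 := s45 c
  try simp only [v1, v2, v15, v19, v21, v22, v23, v25, v44, v45, v46, v154, v160, v161, v162, v163] at a0
  simp only [v1, v2, v15, v19, v21, v22, v23, v25, v44, v45, v46, v154, v160, v161, v162, v163]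
  (try push_cast at a0 ⊢)
  first | linear_combination (2 : ℝ) * a0 | ring | grind

theorem s47 (c : Cx x1 x2) : v47 x1 x2 = v164 x1 x2 + v23 x1 x2 * v167 x1 x2 := by
  have a0 := s46 c
  have b := sl_inv a0 (c.p46).ne' (c.p162).ne'
  clear a0
  try simp only [v1, v2, v15, v19, v21, v22, v23, v25, v44, v45, v46, v47, v154, v160, v161, v162, v163, v164, v165, v166, v167] at b
  simp only [v1, v2, v15, v19, v21, v22, v23, v25, v44, v45, v46, v47, v154, v160, v161, v162, v163, v164, v165, v166, v167]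
  (try push_cast at b ⊢)
  first | linear_combination b | ring | grind

theorem s48 (c : Cx x1 x2) : v48 x1 x2 = v168 x1 x2 + v23 x1 x2 * v172 x1 x2 := by
  have a0 : (v47 x1 x2) * v43 x1 x2 = (v47 x1 x2) * (v155 x1 x2 + v23 x1 x2 * v159 x1 x2) := congrArg (fun z => (v47 x1 x2) * z) (s43 c)
  have a1 : (v155 x1 x2) * v47 x1 x2 = (v155 x1 x2) * (v164 x1 x2 + v23 x1 x2 * v167 x1 x2) := congrArg (fun z => (v155 x1 x2) * z) (s47 c)
  try simp only [v1, v19, v22, v23, v48, v159, v167, v168, v169, v170, v172] at a0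
  try simp only [v1, v19, v22, v23, v48, v159, v167, v168, v169, v170, v172] at a1
  simp only [v1, v19, v22, v23, v48, v159, v167, v168, v169, v170, v172]
  (try push_cast at a0 a1 ⊢)
  first | linear_combination a0 + a1 | ring | grind

theorem s49 (c : Cx x1 x2) : v49 x1 x2 = v63 x1 x2 + v23 x1 x2 * v66 x1 x2 := by
  have a0 : (v28 x1 x2 + v62 x1 x2) * v28 x1 x2 = (v28 x1 x2 + v62 x1 x2) * (v62 x1 x2 + v23 x1 x2 * v61 x1 x2) := congrArg (fun z => (v28 x1 x2 + v62 x1 x2) * z) (s28 c)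
  try simp only [v1, v15, v19, v21, v22, v23, v28, v49, v61, v62, v63, v64, v65, v66] at a0
  simp only [v1, v15, v19, v21, v22, v23, v28, v49, v61, v62, v63, v64, v65, v66]
  (try push_cast at a0 ⊢)
  first | linear_combination a0 | ring | grind

theorem s50 (c : Cx x1 x2) : v50 x1 x2 = v68 x1 x2 + v23 x1 x2 * v69 x1 x2 := by
  have a0 : (v29 x1 x2 + v67 x1 x2) * v29 x1 x2 = (v29 x1 x2 + v67 x1 x2) * (v67 x1 x2 + v23 x1 x2 * v25 x1 x2) := congrArg (fun z => (v29 x1 x2 + v67 x1 x2) * z) (s29 c)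
  try simp only [v0, v1, v19, v22, v23, v25, v29, v50, v67, v68, v69] at a0
  simp only [v0, v1, v19, v22, v23, v25, v29, v50, v67, v68, v69]
  (try push_cast at a0 ⊢)
  first | linear_combination a0 | ring | grind

theorem s51 (c : Cx x1 x2) : v51 x1 x2 = v70 x1 x2 + v23 x1 x2 * v71 x1 x2 := by
  have a0 := s49 c
  have a1 := s50 c
  try simp only [v0, v1, v19, v22, v23, v29, v51, v66, v67, v69, v70, v71] at a0
  try simp only [v0, v1, v19, v22, v23, v29, v51, v66, v67, v69, v70, v71] at a1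
  simp only [v0, v1, v19, v22, v23, v29, v51, v66, v67, v69, v70, v71]
  (try push_cast at a0 a1 ⊢)
  first | linear_combination a0 + a1 | ring | grind

theorem s52 (c : Cx x1 x2) : v52 x1 x2 = v72 x1 x2 + v23 x1 x2 * v71 x1 x2 := by
  have a0 := s51 c
  try simp only [v0, v1, v19, v22, v23, v25, v29, v51, v52, v67, v69, v70, v71, v72] at a0
  simp only [v0, v1, v19, v22, v23, v25, v29, v51, v52, v67, v69, v70, v71, v72]
  (try push_cast at a0 ⊢)
  first | linear_combination a0 | ring | grind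

theorem s74 (c : Cx x1 x2) : v74 x1 x2 = v87 x1 x2 + v23 x1 x2 * v88 x1 x2 := by
  have a1 := s50 c
  try simp only [v0, v1, v19, v22, v23, v25, v29, v67, v69, v74, v87, v88] at a1
  simp only [v0, v1, v19, v22, v23, v25, v29, v67, v69, v74, v87, v88]
  (try push_cast at a1 ⊢)
  first | linear_combination -a1 | ring | grind

theorem q75 (c : Cx x1 x2) : v87 x1 x2 = v76 x1 x2 ^ 2 := by
  have hc := c.hc
  have h3 := s3q x1 x2
  have g0 : v2 x1 x2 ≠ 0 := s3ne x1 x2
  simp only [v0, v3, v8, v9, v10, v13, v15, v17, v19, v22, v25, v67, v68, v76, v87] at hc ⊢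
  push_cast at hc ⊢
  grind

theorem s75 (c : Cx x1 x2) : v75 x1 x2 = v76 x1 x2 + v23 x1 x2 * v92 x1 x2 := by
  have a0 := s74 c
  have e : 0 < Real.sqrt (v74 x1 x2) + v76 x1 x2 := by
    have e := c.p89
    simp only [v15, v25, v74, v75, v76, v89] at e ⊢
    push_cast at e ⊢
    linarith
  have b := sl_sqrt a0 (q75 c) (le_of_lt c.p74) e
  clear a0
  try simp only [v0, v1, v15, v19, v22, v23, v25, v29, v67, v69, v74, v75, v76, v87, v88, v89, v90, v91, v92] at b
  simp only [v0, v1, v15, v19, v22, v23, v25, v29, v67, v69, v74, v75, v76, v87, v88, v89, v90, v91, v92]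
  (try push_cast at b ⊢)
  first | linear_combination b | ring | grind

theorem s77 (c : Cx x1 x2) : v77 x1 x2 = v93 x1 x2 + v23 x1 x2 * v95 x1 x2 := by
  have a0 := s75 c
  try simp only [v1, v15, v19, v22, v23, v76, v77, v92, v93, v94, v95] at a0
  simp only [v1, v15, v19, v22, v23, v76, v77, v92, v93, v94, v95]
  (try push_cast at a0 ⊢)
  first | linear_combination (2 : ℝ) * a0 | ring | grind

theorem s78 (c : Cx x1 x2) : v78 x1 x2 = v96 x1 x2 + v23 x1 x2 * v95 x1 x2 := by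
  have a1 := s77 c
  try simp only [v1, v15, v19, v22, v23, v25, v76, v77, v78, v93, v94, v95, v96] at a1
  simp only [v1, v15, v19, v22, v23, v25, v76, v77, v78, v93, v94, v95, v96]
  (try push_cast at a1 ⊢)
  first | linear_combination a1 | ring | grind

theorem s79 (c : Cx x1 x2) : v79 x1 x2 = v97 x1 x2 + v23 x1 x2 * v2 x1 x2 := by
  have a1 : (v2 x1 x2) * v29 x1 x2 = (v2 x1 x2) * (v67 x1 x2 + v23 x1 x2 * v25 x1 x2) := congrArg (fun z => (v2 x1 x2) * z) (s29 c)
  try simp only [v0, v1, v2, v19, v22, v23, v25, v29, v67, v79, v97] at a1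
  simp only [v0, v1, v2, v19, v22, v23, v25, v29, v67, v79, v97]
  (try push_cast at a1 ⊢)
  first | linear_combination a1 | ring | grind

theorem s80 (c : Cx x1 x2) : v80 x1 x2 = v98 x1 x2 + v23 x1 x2 * v99 x1 x2 := by
  have a0 := s79 c
  have a1 := s75 c
  try simp only [v1, v2, v15, v19, v22, v23, v76, v80, v92, v98, v99] at a0
  try simp only [v1, v2, v15, v19, v22, v23, v76, v80, v92, v98, v99] at a1
  simp only [v1, v2, v15, v19, v22, v23, v76, v80, v92, v98, v99]
  (try push_cast at a0 a1 ⊢)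
  first | linear_combination a0 - a1 | ring | grind

theorem s81 (c : Cx x1 x2) : v81 x1 x2 = v100 x1 x2 + v23 x1 x2 * v104 x1 x2 := by
  have a0 : (v80 x1 x2) * v78 x1 x2 = (v80 x1 x2) * (v96 x1 x2 + v23 x1 x2 * v95 x1 x2) := congrArg (fun z => (v80 x1 x2) * z) (s78 c)
  have a1 : (v96 x1 x2) * v80 x1 x2 = (v96 x1 x2) * (v98 x1 x2 + v23 x1 x2 * v99 x1 x2) := congrArg (fun z => (v96 x1 x2) * z) (s80 c)
  try simp only [v1, v2, v15, v19, v22, v23, v25, v76, v77, v78, v80, v81, v93, v94, v95, v96, v98, v99, v100, v101, v103, v104] at a0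
  try simp only [v1, v2, v15, v19, v22, v23, v25, v76, v77, v78, v80, v81, v93, v94, v95, v96, v98, v99, v100, v101, v103, v104] at a1
  simp only [v1, v2, v15, v19, v22, v23, v25, v76, v77, v78, v80, v81, v93, v94, v95, v96, v98, v99, v100, v101, v103, v104]
  (try push_cast at a0 a1 ⊢)
  first | linear_combination a0 + a1 | ring | grind

theorem s82 (c : Cx x1 x2) : v82 x1 x2 = v105 x1 x2 + v23 x1 x2 * v2 x1 x2 := by
  have a1 := s79 c
  try simp only [v1, v2, v19, v22, v23, v25, v82, v105] at a1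
  simp only [v1, v2, v19, v22, v23, v25, v82, v105]
  (try push_cast at a1 ⊢)
  first | linear_combination a1 | ring | grind

theorem s83 (c : Cx x1 x2) : v83 x1 x2 = v106 x1 x2 + v23 x1 x2 * v99 x1 x2 := by
  have a0 := s82 c
  have a1 := s75 c
  try simp only [v1, v2, v15, v19, v22, v23, v25, v76, v82, v83, v92, v99, v105, v106] at a0
  try simp only [v1, v2, v15, v19, v22, v23, v25, v76, v82, v83, v92, v99, v105, v106] at a1
  simp only [v1, v2, v15, v19, v22, v23, v25, v76, v82, v83, v92, v99, v105, v106]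
  (try push_cast at a0 a1 ⊢)
  first | linear_combination a0 - a1 | ring | grind

theorem s84 (c : Cx x1 x2) : v84 x1 x2 = v107 x1 x2 + v23 x1 x2 * v108 x1 x2 := by
  have a0 := s83 c
  try simp only [v1, v2, v15, v19, v22, v23, v25, v76, v82, v83, v84, v99, v105, v106, v107, v108] at a0
  simp only [v1, v2, v15, v19, v22, v23, v25, v76, v82, v83, v84, v99, v105, v106, v107, v108]
  (try push_cast at a0 ⊢)
  first | linear_combination (2 : ℝ) * a0 | ring | grind

theorem s85 (c : Cx x1 x2) : v85 x1 x2 = v109 x1 x2 + v23 x1 x2 * v112 x1 x2 := by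
  have a0 := s84 c
  have b := sl_inv a0 (c.p84).ne' (c.p107).ne'
  clear a0
  try simp only [v1, v2, v15, v19, v22, v23, v25, v76, v82, v83, v84, v85, v99, v105, v106, v107, v108, v109, v110, v111, v112] at b
  simp only [v1, v2, v15, v19, v22, v23, v25, v76, v82, v83, v84, v85, v99, v105, v106, v107, v108, v109, v110, v111, v112]
  (try push_cast at b ⊢)
  first | linear_combination b | ring | grind

theorem s86 (c : Cx x1 x2) : v86 x1 x2 = v113 x1 x2 + v23 x1 x2 * v117 x1 x2 := by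
  have a0 : (v85 x1 x2) * v81 x1 x2 = (v85 x1 x2) * (v100 x1 x2 + v23 x1 x2 * v104 x1 x2) := congrArg (fun z => (v85 x1 x2) * z) (s81 c)
  have a1 : (v100 x1 x2) * v85 x1 x2 = (v100 x1 x2) * (v109 x1 x2 + v23 x1 x2 * v112 x1 x2) := congrArg (fun z => (v100 x1 x2) * z) (s85 c)
  try simp only [v1, v19, v22, v23, v86, v104, v112, v113, v114, v115, v117] at a0
  try simp only [v1, v19, v22, v23, v86, v104, v112, v113, v114, v115, v117] at a1
  simp only [v1, v19, v22, v23, v86, v104, v112, v113, v114, v115, v117]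
  (try push_cast at a0 a1 ⊢)
  first | linear_combination a0 + a1 | ring | grind

theorem s132 (c : Cx x1 x2) : v132 x1 x2 = v137 x1 x2 + v23 x1 x2 * v7 x1 x2 := by
  have a1 : (v7 x1 x2) * v1 x1 x2 = (v7 x1 x2) * (v22 x1 x2 + v23 x1 x2 * v25 x1 x2) := congrArg (fun z => (v7 x1 x2) * z) (s1 c)
  try simp only [v1, v19, v22, v23, v25, v132, v137] at a1
  simp only [v1, v19, v22, v23, v25, v132, v137]
  (try push_cast at a1 ⊢)
  first | linear_combination a1 | ring | grind

theorem s133 (c : Cx x1 x2) : v133 x1 x2 = v138 x1 x2 + v23 x1 x2 * v140 x1 x2 := by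
  have a0 : (v0 x1 x2) * v27 x1 x2 = (v0 x1 x2) * (v21 x1 x2 + v23 x1 x2 * v61 x1 x2) := congrArg (fun z => (v0 x1 x2) * z) (s27 c)
  try simp only [v0, v1, v15, v19, v21, v22, v23, v61, v133, v138, v139, v140] at a0
  simp only [v0, v1, v15, v19, v21, v22, v23, v61, v133, v138, v139, v140]
  (try push_cast at a0 ⊢)
  first | linear_combination a0 | ring | grind

theorem s134 (c : Cx x1 x2) : v134 x1 x2 = v141 x1 x2 + v23 x1 x2 * v142 x1 x2 := by
  have a0 := s132 c
  have a1 := s133 c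
  try simp only [v1, v19, v22, v23, v134, v140, v141, v142] at a0
  try simp only [v1, v19, v22, v23, v134, v140, v141, v142] at a1
  simp only [v1, v19, v22, v23, v134, v140, v141, v142]
  (try push_cast at a0 a1 ⊢)
  first | linear_combination a0 - a1 | ring | grind

theorem s135 (c : Cx x1 x2) : v135 x1 x2 = v143 x1 x2 + v23 x1 x2 * v144 x1 x2 := by
  have a0 : (v8 x1 x2) * v134 x1 x2 = (v8 x1 x2) * (v141 x1 x2 + v23 x1 x2 * v142 x1 x2) := congrArg (fun z => (v8 x1 x2) * z) (s134 c)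
  try simp only [v1, v19, v22, v23, v134, v135, v141, v142, v143, v144] at a0
  simp only [v1, v19, v22, v23, v134, v135, v141, v142, v143, v144]
  (try push_cast at a0 ⊢)
  first | linear_combination a0 | ring | grind

theorem s136 (c : Cx x1 x2) : v136 x1 x2 = v145 x1 x2 + v23 x1 x2 * v144 x1 x2 := by
  have a0 := s135 c
  try simp only [v1, v12, v19, v22, v23, v136, v145] at a0
  simp only [v1, v12, v19, v22, v23, v136, v145]
  (try push_cast at a0 ⊢)
  first | linear_combination a0 | ring | grind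

theorem s146 (c : Cx x1 x2) : v146 x1 x2 = v200 x1 x2 + v23 x1 x2 * v25 x1 x2 := by
  have a0 := s29 c
  try simp only [v0, v1, v2, v3, v19, v22, v23, v25, v29, v67, v146, v200] at a0
  simp only [v0, v1, v2, v3, v19, v22, v23, v25, v29, v67, v146, v200]
  (try push_cast at a0 ⊢)
  first | linear_combination a0 | ring | grind

theorem s147 (c : Cx x1 x2) : v147 x1 x2 = v174 x1 x2 + v23 x1 x2 * v25 x1 x2 := by
  have a0 := s1 c
  try simp only [v1, v2, v3, v19, v22, v23, v25, v147, v174] at a0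
  simp only [v1, v2, v3, v19, v22, v23, v25, v147, v174]
  (try push_cast at a0 ⊢)
  first | linear_combination a0 | ring | grind

theorem bD (c : Cx x1 x2) : v72 x1 x2 = 0 := by
  have hc := c.hc
  have h3 := s3q x1 x2
  have g0 : v2 x1 x2 ≠ 0 := s3ne x1 x2
  simp only [v0, v3, v8, v9, v10, v13, v15, v17, v19, v21, v22, v25, v62, v63, v67, v68, v70, v72] at hc ⊢
  push_cast at hc ⊢
  grind

theorem sD (c : Cx x1 x2) : v52 x1 x2 = v23 x1 x2 * v71 x1 x2 := by
  have h := s52 c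
  rw [bD c, zero_add] at h
  exact h

theorem s125 (c : Cx x1 x2) : v125 x1 x2 = v126 x1 x2 + v23 x1 x2 * v131 x1 x2 := by
  have hA := s86 c
  have hd := sD c
  have hs := c.p119
  have hc : v75 x1 x2 ^ 2 = v74 x1 x2 := by
    rw [v75]; exact Real.sq_sqrt (le_of_lt c.p74)
  have hx : v73 x1 x2 - v75 x1 x2 = v52 x1 x2 * (v119 x1 x2)⁻¹ := by
    have g : v73 x1 x2 ^ 2 - v75 x1 x2 ^ 2 = v52 x1 x2 := by
      rw [hc]; simp only [v0, v1, v25, v28, v29, v49, v50, v51, v52, v73, v74, v119]; push_cast; ring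
    have g3 : v119 x1 x2 = v73 x1 x2 + v75 x1 x2 := by
      simp only [v0, v1, v25, v28, v29, v49, v50, v51, v52, v73, v74, v119]; try push_cast
      try ring
    have g2 : 0 < v73 x1 x2 + v75 x1 x2 := by rw [← g3]; exact hs
    rw [g3]; exact diff_of_sq g g2
  have hy : v118 x1 x2 * (v73 x1 x2 - v75 x1 x2) = v118 x1 x2 * (v52 x1 x2 * (v119 x1 x2)⁻¹) := congrArg (fun z => v118 x1 x2 * z) hx
  have hK : v118 x1 x2 * (v119 x1 x2)⁻¹ * v52 x1 x2 = v118 x1 x2 * (v119 x1 x2)⁻¹ * (v23 x1 x2 * v71 x1 x2) := congrArg (fun z => v118 x1 x2 * (v119 x1 x2)⁻¹ * z) hd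
  try simp only [v0, v1, v19, v22, v23, v25, v29, v51, v52, v67, v69, v71, v73, v117, v119, v122, v123, v124, v125, v126, v127, v128, v129, v130, v131] at hA
  try simp only [v0, v1, v19, v22, v23, v25, v29, v51, v52, v67, v69, v71, v73, v117, v119, v122, v123, v124, v125, v126, v127, v128, v129, v130, v131] at hy
  try simp only [v0, v1, v19, v22, v23, v25, v29, v51, v52, v67, v69, v71, v73, v117, v119, v122, v123, v124, v125, v126, v127, v128, v129, v130, v131] at hK
  simp only [v0, v1, v19, v22, v23, v25, v29, v51, v52, v67, v69, v71, v73, v117, v119, v122, v123, v124, v125, v126, v127, v128, v129, v130, v131]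
  (try push_cast at hA hy hK ⊢)
  first | linear_combination -(hA + hy + hK) | grind

theorem bE (c : Cx x1 x2) : v145 x1 x2 = 0 := by
  have hc := c.hc
  have h3 := s3q x1 x2
  have g0 : v2 x1 x2 ≠ 0 := s3ne x1 x2
  simp only [v0, v3, v8, v9, v10, v12, v13, v15, v17, v19, v21, v22, v137, v138, v141, v143, v145] at hc ⊢
  push_cast at hc ⊢
  grind

theorem hE (c : Cx x1 x2) : v136 x1 x2 = v23 x1 x2 * v144 x1 x2 := by
  have h := s136 c
  rw [bE c, zero_add] at h
  exact h

theorem bS (c : Cx x1 x2) : v168 x1 x2 - v38 x1 x2 - v126 x1 x2 = 0 := by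
  have hc := c.hc
  have h3 := s3q x1 x2
  have g1 := (c.p35).ne'
  have g2 := (c.p107).ne'
  have g3 := (c.p162).ne'
  have g0 : v2 x1 x2 ≠ 0 := s3ne x1 x2
  simp only [v0, v3, v4, v8, v9, v10, v13, v15, v17, v19, v21, v22, v25, v30, v31, v32, v33, v34, v35, v36, v37, v38, v67, v76, v93, v96, v97, v98, v100, v105, v106, v107, v109, v113, v126, v148, v151, v152, v153, v155, v160, v161, v162, v164, v168] at hc g1 g2 g3 ⊢
  push_cast at hc g1 g2 g3 ⊢
  grind

theorem hS (c : Cx x1 x2) : v48 x1 x2 - v38 x1 x2 - v125 x1 x2 = v23 x1 x2 * v173 x1 x2 := by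
  have a3 := s48 c
  have a2 := s125 c
  have b := bS c
  try simp only [v1, v19, v22, v23, v38, v117, v124, v125, v126, v130, v131, v172, v173] at a3
  try simp only [v1, v19, v22, v23, v38, v117, v124, v125, v126, v130, v131, v172, v173] at a2
  try simp only [v1, v19, v22, v23, v38, v117, v124, v125, v126, v130, v131, v172, v173] at b
  try simp only [v1, v19, v22, v23, v38, v117, v124, v125, v126, v130, v131, v172, v173]
  (try push_cast at a3 a2 b ⊢)
  first | linear_combination a3 - a2 + b | grind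

theorem bC (c : Cx x1 x2) : v0 x1 x2 * v168 x1 x2 - v174 x1 x2 * v38 x1 x2 = 0 := by
  have hc := c.hc
  have h3 := s3q x1 x2
  have g1 := (c.p35).ne'
  have g2 := (c.p162).ne'
  have g0 : v2 x1 x2 ≠ 0 := s3ne x1 x2
  simp only [v0, v3, v4, v8, v9, v10, v13, v15, v17, v19, v21, v22, v25, v30, v31, v32, v33, v34, v35, v36, v37, v38, v148, v151, v152, v153, v155, v160, v161, v162, v164, v168, v174] at hc g1 g2 ⊢
  push_cast at hc g1 g2 ⊢
  grind

theorem hC (c : Cx x1 x2) : v0 x1 x2 * v48 x1 x2 - v147 x1 x2 * v38 x1 x2 = v23 x1 x2 * v176 x1 x2 := by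
  have a2 : v0 x1 x2 * v48 x1 x2 = v0 x1 x2 * (v168 x1 x2 + v23 x1 x2 * v172 x1 x2) := congrArg (fun z => v0 x1 x2 * z) (s48 c)
  have a3 : v38 x1 x2 * v147 x1 x2 = v38 x1 x2 * (v174 x1 x2 + v23 x1 x2 * v25 x1 x2) := congrArg (fun z => v38 x1 x2 * z) (s147 c)
  have b := bC c
  try simp only [v0, v1, v2, v3, v19, v22, v23, v25, v38, v147, v172, v174, v175, v176] at a2
  try simp only [v0, v1, v2, v3, v19, v22, v23, v25, v38, v147, v172, v174, v175, v176] at a3
  try simp only [v0, v1, v2, v3, v19, v22, v23, v25, v38, v147, v172, v174, v175, v176] at b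
  simp only [v0, v1, v2, v3, v19, v22, v23, v25, v38, v147, v172, v174, v175, v176]
  (try push_cast at a2 a3 b ⊢)
  first | linear_combination a2 - a3 + b | grind

theorem hT (x1 x2 : ℝ) : v147 x1 x2 = v0 x1 x2 + v146 x1 x2 := by
  simp only [v0, v1, v2, v3, v29, v146, v147]
  push_cast
  ring

theorem hG (c : Cx x1 x2) : v0 x1 x2 * v48 x1 x2 - (-v147 x1 x2) * (-v38 x1 x2) = v23 x1 x2 * v176 x1 x2 := by
  have b := hC c
  try simp only [v0, v1, v2, v3, v19, v22, v23, v29, v38, v117, v124, v125, v130, v146, v147, v172, v173, v176] at b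
  try simp only [v0, v1, v2, v3, v19, v22, v23, v29, v38, v117, v124, v125, v130, v146, v147, v172, v173, v176]
  (try push_cast at b ⊢)
  first | linear_combination b | grind

theorem core (c : Cx x1 x2) (hW : 0 ≤ v23 x1 x2) (hWQ : 0 ≤ v23 x1 x2 * v184 x1 x2) (h1 : 0 ≤ (-v147 x1 x2)) (h2 : 0 ≤ v0 x1 x2) (h3 : (-v147 x1 x2) + v0 x1 x2 ≤ Pool.Agent.StripNear.h0) :
    0 ≤ starn_v (v136 x1 x2) ((-v147 x1 x2)) (v0 x1 x2) (v48 x1 x2) ((-v38 x1 x2)) (v125 x1 x2) := by
  have hD : v48 x1 x2 + (-v38 x1 x2) - v125 x1 x2 = v23 x1 x2 * v173 x1 x2 := by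
    have b := hS c
    linear_combination b
  have k := starn_ge hW h1 h2 h3 (hE c) hD (hG c)
  have f0 : (-v147 x1 x2) = v183 x1 x2 := by
    simp only [v0, v1, v2, v3, v147, v183]
    try (push_cast; ring)
  refine le_trans hWQ (le_trans (le_of_eq ?_) k)
  rw [v184]
  rw [f0]

end Pool.Agent.Strip051.LB.ChB30V3_pp_011
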